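import Mathlib
import Pool.Agent.R198.MOFFinal

/-!
# The maximum oriented zero forcing number can be smaller than half the order

The truncated Petersen graph (30 vertices) has `MOF ≤ 14`.
-/

namespace Pool.Agent.Results.MP_ad37e1_co.TruncatedPetersen

variable {V : Type*}

/-- `D` (with `D u v` for: `(u, v)` is an arc) is an orientation of `G`: every edge `uv` is
replaced by exactly one of the arcs `(u, v)`, `(v, u)`. -/
structure IsOrientation (G : SimpleGraph V) (D : V → V → Prop) : Prop where
  arc_adj : ∀ u v, D u v → G.Adj u v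
  adj_arc : ∀ u v, G.Adj u v → D u v ∨ D v u
  asymm : ∀ u v, D u v → ¬ D v u

/-- One round of the colour change rule: `C` is the set of coloured vertices; every coloured
vertex `u` with at most one non-coloured out-neighbour colours its out-neighbours. -/
def step (D : V → V → Prop) (C : Set V) : Set V :=
  C ∪ {v | ∃ u ∈ C, D u v ∧ {w | D u w ∧ w ∉ C}.ncard ≤ 1}

/-- `S` is a forcing set of `D`: it is nonempty and after some number of rounds every vertex is
coloured. -/
def IsForcing (D : V → V → Prop) (S : Finset V) : Prop :=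
  S.Nonempty ∧ ∃ t : ℕ, (step D)^[t] (S : Set V) = Set.univ

/-- `F D`, the least size of a forcing set of `D`. -/
noncomputable def F (D : V → V → Prop) : ℕ :=
  sInf {m | ∃ S : Finset V, IsForcing D S ∧ S.card = m}

/-- `MOF G`, the largest value of `F D` over the orientations `D` of `G`. -/
noncomputable def MOF (G : SimpleGraph V) : ℕ :=
  sSup {m | ∃ D : V → V → Prop, IsOrientation G D ∧ F D = m}

theorem F_le {D : Fin 30 → Fin 30 → Prop} (hD : IsOrientation R198.MOFC.G30 D) : F D ≤ 14 := by
  obtain ⟨S, hS, hc, hfin⟩ := R198.MOFC.final D hD.arc_adj hD.adj_arc hD.asymm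
  obtain ⟨t, ht⟩ := hfin (fun t => (step D)^[t] (S : Set (Fin 30))) (fun x hx => hx)
    (fun t => by
      simp only [Function.iterate_succ_apply']
      exact Set.subset_union_left)
    (fun t u v hu hd hw => by
      simp only [Function.iterate_succ_apply']
      refine Or.inr ⟨u, hu, hd, ?_⟩
      refine le_trans (Set.ncard_le_ncard (t := {v}) ?_ (Set.finite_singleton v))
        (by rw [Set.ncard_singleton])
      rintro w ⟨hw1, hw2⟩
      by_contra hne
      exact hw2 (hw w hw1 hne))
  refine le_trans (Nat.sInf_le ⟨S, ⟨hS, t, ht⟩, rfl⟩) hc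

/-- There is a graph `G` of order `n = 30` all of whose orientations `D` satisfy
`F D < n / 2`, so `MOF G < n / 2`. -/
theorem result : ∃ (n : ℕ) (G : SimpleGraph (Fin n)), 2 ≤ n ∧
    (∀ D : Fin n → Fin n → Prop, IsOrientation G D → (F D : ℚ) < (n : ℚ) / 2) ∧
    (MOF G : ℚ) < (n : ℚ) / 2 := by
  refine ⟨30, R198.MOFC.G30, by norm_num, ?_, ?_⟩
  · intro D hD
    have h : (F D : ℚ) ≤ 14 := by exact_mod_cast F_le hD
    exact lt_of_le_of_lt h (by norm_num)
  · have h : MOF R198.MOFC.G30 ≤ 14 := by
      apply csSup_le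
      · obtain ⟨D, h1, h2, h3⟩ := R198.MOFC.exists_ori
        exact ⟨F D, D, ⟨h1, h2, h3⟩, rfl⟩
      · rintro m ⟨D, hD, rfl⟩
        exact F_le hD
    have h' : (MOF R198.MOFC.G30 : ℚ) ≤ 14 := by exact_mod_cast h
    exact lt_of_le_of_lt h' (by norm_num)

end Pool.Agent.Results.MP_ad37e1_co.TruncatedPetersen
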